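import Mathlib
import Pool.Agent.R213.GlobalODE
import Pool.Agent.H772R2.NSR.Ode

/-!
Global existence for autonomous ODEs with a locally Lipschitz vector field `F` with `⟪F x, x⟫ ≤ 0`.
-/

set_option autoImplicit false

namespace Pool.Agent.U178.RT

open Set Filter Topology Metric
open scoped NNReal RealInnerProductSpace
open H772R2.NSR (cut cut_nonneg cut_le_one cut_eq_one cut_eq_zero abs_cut_sub_le)

variable {E : Type*} [NormedAddCommGroup E] [InnerProductSpace ℝ E] [CompleteSpace E]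

theorem lip_cut {F : E → E} {R : ℝ} (hR : 0 < R) {K : ℝ≥0}
    (hK : LipschitzOnWith K F (closedBall 0 (2 * R))) :
    ∃ M : ℝ≥0, LipschitzWith M (fun x => cut R x • F x) ∧ ∀ x, ‖cut R x • F x‖ ≤ M := by
  set B : ℝ := K * (2 * R) + ‖F 0‖ with hB
  have hB0 : 0 ≤ B := by positivity
  have h0 : (0 : E) ∈ closedBall (0 : E) (2 * R) := by
    rw [mem_closedBall, dist_self]
    linarith
  have hF : ∀ x ∈ closedBall (0 : E) (2 * R), ‖F x‖ ≤ B := by
    intro x hx
    have h1 := hK.dist_le_mul x hx 0 h0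
    rw [dist_eq_norm, dist_eq_norm, sub_zero] at h1
    have h2 : ‖x‖ ≤ 2 * R := by rwa [mem_closedBall, dist_zero_right] at hx
    have h3 : ‖F x‖ ≤ ‖F x - F 0‖ + ‖F 0‖ := by
      have := norm_add_le (F x - F 0) (F 0)
      rwa [sub_add_cancel] at this
    have h4 : (K : ℝ) * ‖x‖ ≤ K * (2 * R) := by gcongr
    linarith
  have hlip : ∀ x y, ‖y‖ ≤ 2 * R → ‖cut R x • F x - cut R y • F y‖ ≤ (B / R + K) * ‖x - y‖ := by
    intro x y hy
    have hym : y ∈ closedBall (0 : E) (2 * R) := by rwa [mem_closedBall, dist_zero_right]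
    have hc := abs_cut_sub_le hR x y
    have h1 : |cut R x - cut R y| * ‖F y‖ ≤ B / R * ‖x - y‖ := by
      calc |cut R x - cut R y| * ‖F y‖ ≤ (‖x - y‖ / R) * B :=
            mul_le_mul hc (hF y hym) (norm_nonneg _) (by positivity)
        _ = B / R * ‖x - y‖ := by ring
    by_cases hx : ‖x‖ ≤ 2 * R
    · have hxm : x ∈ closedBall (0 : E) (2 * R) := by rwa [mem_closedBall, dist_zero_right]
      have h2 := hK.dist_le_mul x hxm y hym
      rw [dist_eq_norm, dist_eq_norm] at h2
      have h3 : cut R x • F x - cut R y • F y =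
          cut R x • (F x - F y) + (cut R x - cut R y) • F y := by
        rw [smul_sub, sub_smul]
        abel
      rw [h3]
      refine (norm_add_le _ _).trans ?_
      rw [norm_smul, norm_smul, Real.norm_eq_abs, Real.norm_eq_abs, abs_of_nonneg (cut_nonneg R x)]
      have h4 : cut R x * ‖F x - F y‖ ≤ 1 * (K * ‖x - y‖) :=
        mul_le_mul (cut_le_one R x) h2 (norm_nonneg _) zero_le_one
      linarith
    · push Not at hx
      rw [cut_eq_zero hR hx.le, zero_smul, zero_sub, norm_neg, norm_smul, Real.norm_eq_abs]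
      have h5 : cut R x = 0 := cut_eq_zero hR hx.le
      rw [h5, zero_sub, abs_neg] at h1
      have h6 : 0 ≤ (K : ℝ) * ‖x - y‖ := by positivity
      linarith
  have hL0 : 0 ≤ B / R + K := by positivity
  refine ⟨⟨max (B / R + K) B, le_max_of_le_right hB0⟩, ?_, ?_⟩
  · apply LipschitzWith.of_dist_le_mul
    intro x y
    rw [dist_eq_norm, dist_eq_norm]
    change _ ≤ max (B / R + K) B * ‖x - y‖
    have hmax : (B / R + K) * ‖x - y‖ ≤ max (B / R + K) B * ‖x - y‖ :=
      mul_le_mul_of_nonneg_right (le_max_left _ _) (norm_nonneg _)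
    by_cases hy : ‖y‖ ≤ 2 * R
    · exact (hlip x y hy).trans hmax
    · by_cases hx : ‖x‖ ≤ 2 * R
      · have h1 := hlip y x hx
        rw [norm_sub_rev, norm_sub_rev y x] at h1
        exact h1.trans hmax
      · push Not at hx hy
        rw [cut_eq_zero hR hx.le, cut_eq_zero hR hy.le, zero_smul, zero_smul, sub_zero, norm_zero]
        positivity
  · intro x
    change _ ≤ max (B / R + K) B
    by_cases hx : ‖x‖ ≤ 2 * R
    · rw [norm_smul, Real.norm_eq_abs, abs_of_nonneg (cut_nonneg R x)]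
      have h1 := hF x (by rwa [mem_closedBall, dist_zero_right])
      calc cut R x * ‖F x‖ ≤ 1 * B := mul_le_mul (cut_le_one R x) h1 (norm_nonneg _) zero_le_one
        _ = B := one_mul B
        _ ≤ _ := le_max_right _ _
    · push Not at hx
      rw [cut_eq_zero hR hx.le, zero_smul, norm_zero]
      exact le_max_of_le_right hB0

/-- **Global existence for dissipative fields.** -/
theorem global {F : E → E}
    (hF : ∀ R : ℝ, 0 < R → ∃ K : ℝ≥0, LipschitzOnWith K F (closedBall 0 R))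
    (hd : ∀ x, ⟪F x, x⟫ ≤ 0) (x₀ : E) :
    ∃ α : ℝ → E, α 0 = x₀ ∧ (∀ t, 0 ≤ t → HasDerivWithinAt α (F (α t)) (Ici 0) t) ∧
      ∀ t, 0 ≤ t → ‖α t‖ ≤ ‖x₀‖ := by
  set R : ℝ := ‖x₀‖ + 1 with hR
  have hR0 : 0 < R := by positivity
  obtain ⟨K, hK⟩ := hF (2 * R) (by linarith)
  obtain ⟨M, hM1, hM2⟩ := lip_cut hR0 hK
  obtain ⟨α, hα0, hα⟩ := Pool.Agent.R213.exists_solution_Ici hM1 hM2 x₀
  have hcont : ContinuousOn α (Ici 0) := fun t ht => (hα t ht).continuousWithinAt
  have hint : ∀ t, 0 < t → HasDerivAt α (cut R (α t) • F (α t)) t := fun t ht =>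
    (hα t ht.le).hasDerivAt (Ici_mem_nhds ht)
  have hder : ∀ t, 0 < t → HasDerivAt (fun t => ‖α t‖ ^ 2)
      (2 * ⟪α t, cut R (α t) • F (α t)⟫) t := fun t ht => (hint t ht).norm_sq
  have hanti : AntitoneOn (fun t => ‖α t‖ ^ 2) (Ici 0) := by
    apply antitoneOn_of_deriv_nonpos (convex_Ici 0)
    · exact (hcont.norm).pow 2
    · rw [interior_Ici]
      exact fun t ht => (hder t ht).differentiableAt.differentiableWithinAt
    · rw [interior_Ici]
      intro t ht
      rw [(hder t ht).deriv, real_inner_smul_right, real_inner_comm]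
      have h1 := mul_nonneg (cut_nonneg R (α t)) (neg_nonneg.2 (hd (α t)))
      linarith
  have hbound : ∀ t, 0 ≤ t → ‖α t‖ ≤ ‖x₀‖ := by
    intro t ht
    have h1 := hanti (mem_Ici.2 le_rfl) (mem_Ici.2 ht) ht
    simp only [hα0] at h1
    exact (sq_le_sq₀ (norm_nonneg _) (norm_nonneg _)).1 h1
  refine ⟨α, hα0, fun t ht => ?_, hbound⟩
  have h1 := hα t ht
  rwa [cut_eq_one hR0 ((hbound t ht).trans (by linarith)), one_smul] at h1

end Pool.Agent.U178.RT
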