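import Pool.Agent.N983.RT.Stm2
import Pool.Agent.U178.RT.Abs

/-!
Project RT, package ODE: global solutions of the truncated systems.
-/

set_option autoImplicit false

namespace Pool.Agent.U178.RT

open Set Filter Topology Metric
open scoped NNReal RealInnerProductSpace
open Pool.Agent.N983.RT

/-- coordinates of the fields with wave vectors in `cub n` -/
abbrev Ix (n : ℕ) : Type := {k // k ∈ cub n} × Fin 3

/-- the fields with wave vectors in `cub n` -/
abbrev Vn (n : ℕ) : Type := PiLp 2 (fun _ : Ix n => ℂ)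

variable {n : ℕ}

open Classical in
/-- extension by zero -/
noncomputable def ext (x : Vn n) : Fld := fun k i => if h : k ∈ cub n then x (⟨k, h⟩, i) else 0

theorem ext_mem (x : Vn n) {k : Wv} (h : k ∈ cub n) (i : Fin 3) : ext x k i = x (⟨k, h⟩, i) := by
  simp [ext, h]

theorem ext_out (x : Vn n) {k : Wv} (h : k ∉ cub n) : ext x k = 0 := by
  funext i
  simp [ext, h]

theorem ext_add (x y : Vn n) (k : Wv) (i : Fin 3) : ext (x + y) k i = ext x k i + ext y k i := by
  by_cases h : k ∈ cub n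
  · simp [ext_mem _ h]
  · simp [ext_out _ h]

theorem ext_smul (c : ℝ) (x : Vn n) (k : Wv) (i : Fin 3) :
    ext (c • x) k i = (c : ℂ) * ext x k i := by
  by_cases h : k ∈ cub n
  · simp [ext_mem _ h]
  · simp [ext_out _ h]

theorem ext_zero (k : Wv) (i : Fin 3) : ext (0 : Vn n) k i = 0 := by
  by_cases h : k ∈ cub n
  · simp [ext_mem _ h]
  · simp [ext_out _ h]

theorem mem_cub_neg {k : Wv} : -k ∈ cub n ↔ k ∈ cub n := by
  simp only [cub, Fintype.mem_piFinset, Finset.mem_Icc, Pi.neg_apply]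
  constructor <;> intro h i <;> have := h i <;> constructor <;> omega

theorem zero_mem_cub : (0 : Wv) ∈ cub n := by
  simp [cub, Fintype.mem_piFinset]

theorem nsq_neg (k : Wv) : nsq (-k) = nsq k := by
  simp [nsq]

theorem nsq_nonneg (k : Wv) : 0 ≤ nsq k := Finset.sum_nonneg fun _ _ => sq_nonneg _

theorem nsq_ne {k : Wv} (h : k ≠ 0) : nsq k ≠ 0 := by
  intro h0
  apply h
  funext i
  have h1 := (Finset.sum_eq_zero_iff_of_nonneg fun i _ => sq_nonneg ((k i : ℝ))).1 h0 i
    (Finset.mem_univ i)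
  have h2 : (k i : ℝ) = 0 := by simpa using h1
  exact_mod_cast h2

theorem dt_prj {k : Wv} (h : k ≠ 0) (a : Fin 3 → ℂ) : dt (prj k a) k = 0 := by
  have h1 : (nsq k : ℂ) ≠ 0 := by exact_mod_cast nsq_ne h
  have h2 : (nsq k : ℂ) = ∑ i, (k i : ℂ) * (k i : ℂ) := by
    unfold nsq
    push_cast
    exact Finset.sum_congr rfl fun i _ => by ring
  unfold dt prj
  have h3 : ∑ i, (a i - dt a k * (k i : ℂ) / (nsq k : ℂ)) * (k i : ℂ) =
      ∑ i, a i * (k i : ℂ) - dt a k / (nsq k : ℂ) * ∑ i, (k i : ℂ) * (k i : ℂ) := by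
    rw [Finset.mul_sum, ← Finset.sum_sub_distrib]
    exact Finset.sum_congr rfl fun i _ => by ring
  rw [h3, ← h2]
  unfold dt
  field_simp
  ring

theorem dt_neg_conj (a : Fin 3 → ℂ) (k : Wv) :
    dt (fun i => (starRingEnd ℂ) (a i)) (-k) = -(starRingEnd ℂ) (dt a k) := by
  unfold dt
  rw [map_sum, ← Finset.sum_neg_distrib]
  refine Finset.sum_congr rfl fun i _ => ?_
  rw [map_mul, Pi.neg_apply, Int.cast_neg, map_intCast]
  ring

theorem prj_neg (k : Wv) (a : Fin 3 → ℂ) (i : Fin 3) :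
    prj (-k) (fun i => -(starRingEnd ℂ) (a i)) i = -(starRingEnd ℂ) (prj k a i) := by
  unfold prj
  have h1 : dt (fun i => -(starRingEnd ℂ) (a i)) (-k) = (starRingEnd ℂ) (dt a k) := by
    have h2 := dt_neg_conj a k
    have h3 : dt (fun i => -(starRingEnd ℂ) (a i)) (-k) =
        -dt (fun i => (starRingEnd ℂ) (a i)) (-k) := by
      unfold dt
      rw [← Finset.sum_neg_distrib]
      exact Finset.sum_congr rfl fun i _ => by ring
    rw [h3, h2, neg_neg]
  rw [h1, nsq_neg, map_sub, map_div₀, map_mul, map_intCast, Complex.conj_ofReal,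
    Pi.neg_apply, Int.cast_neg]
  ring

theorem cutg_neg {g : Wv → Wv → Wv → ℝ} (hg : Arr g) (k l m : Wv) :
    cutg n g (-k) (-l) (-m) = cutg n g k l m := by
  unfold cutg
  simp only [mem_cub_neg, hg.neg]

/-- the convolution is a finite sum -/
theorem conv_eq (g : Wv → Wv → Wv → ℝ) (u : Fld) (m : Wv) (j : Fin 3) :
    conv (cutg n g) u m j =
      ∑ k ∈ cub n, (cutg n g k (m - k) (-m) : ℂ) * dt (u k) (m - k) * u (m - k) j := by
  unfold conv
  apply tsum_eq_sum
  intro k hk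
  simp [cutg, hk]

theorem conv_out (g : Wv → Wv → Wv → ℝ) (u : Fld) {m : Wv} (hm : m ∉ cub n) :
    conv (cutg n g) u m = 0 := by
  funext j
  rw [conv_eq]
  apply Finset.sum_eq_zero
  intro k _
  simp [cutg, mem_cub_neg, hm]

theorem conv_neg {g : Wv → Wv → Wv → ℝ} (hg : Arr g) {u : Fld}
    (hu : ∀ k i, u (-k) i = (starRingEnd ℂ) (u k i)) (m : Wv) (j : Fin 3) :
    conv (cutg n g) u (-m) j = -(starRingEnd ℂ) (conv (cutg n g) u m j) := by
  rw [conv_eq, conv_eq, map_sum, ← Finset.sum_neg_distrib]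
  refine Finset.sum_nbij' (fun k => -k) (fun k => -k) (fun k hk => mem_cub_neg.2 hk)
    (fun k hk => mem_cub_neg.2 hk) (fun k _ => neg_neg k) (fun k _ => neg_neg k) ?_
  intro k _
  have h1 : (-m : Wv) - k = -(m - -k) := by abel
  have h2 : u k = fun i => (starRingEnd ℂ) (u (-k) i) := by
    funext i
    rw [← hu, neg_neg]
  have h3 : cutg n g k (-m - k) (- -m) = cutg n g (-k) (m - -k) (-m) := by
    rw [← cutg_neg hg (-k), h1, neg_neg, neg_neg]
  rw [h3, map_mul, map_mul, Complex.conj_ofReal]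
  rw [show dt (u k) (-m - k) = -(starRingEnd ℂ) (dt (u (-k)) (m - -k)) by
    rw [h2, h1, dt_neg_conj]]
  rw [show u (-m - k) j = (starRingEnd ℂ) (u (m - -k) j) by rw [h1, hu]]
  ring

/-- the vector field -/
noncomputable def fld (g : Wv → Wv → Wv → ℝ) (ν α : ℝ) (x : Vn n) : Vn n :=
  WithLp.toLp 2 fun p => if p.1.1 = 0 then 0 else rhs (cutg n g) ν α (ext x) p.1.1 p.2

theorem ext_fld (g : Wv → Wv → Wv → ℝ) (ν α : ℝ) (x : Vn n) {k : Wv} (h : k ∈ cub n) (i : Fin 3) :
    ext (fld g ν α x) k i = if k = 0 then 0 else rhs (cutg n g) ν α (ext x) k i := by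
  rw [ext_mem _ h]
  rfl

theorem rhs_out (g : Wv → Wv → Wv → ℝ) (ν α : ℝ) {u : Fld} {m : Wv} (hm : m ∉ cub n)
    (hu : u m = 0) (j : Fin 3) : rhs (cutg n g) ν α u m j = 0 := by
  unfold rhs
  rw [conv_out g u hm, hu]
  simp [prj, dt]

theorem dt_rhs (g : Wv → Wv → Wv → ℝ) (ν α : ℝ) {u : Fld} {m : Wv} (hm : m ≠ 0)
    (hu : dt (u m) m = 0) : dt (rhs g ν α u m) m = 0 := by
  have h1 : dt (rhs g ν α u m) m = -((ν * nsq m ^ α : ℝ) : ℂ) * dt (u m) m -
      Complex.I * dt (prj m (conv g u m)) m := by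
    unfold dt rhs
    rw [Finset.mul_sum, Finset.mul_sum, ← Finset.sum_sub_distrib]
    exact Finset.sum_congr rfl fun i _ => by ring
  rw [h1, hu, dt_prj hm]
  ring

theorem rhs_neg {g : Wv → Wv → Wv → ℝ} (hg : Arr g) (ν α : ℝ) {u : Fld}
    (hu : ∀ k i, u (-k) i = (starRingEnd ℂ) (u k i)) (m : Wv) (j : Fin 3) :
    rhs (cutg n g) ν α u (-m) j = (starRingEnd ℂ) (rhs (cutg n g) ν α u m j) := by
  unfold rhs
  have h1 : conv (cutg n g) u (-m) = fun j => -(starRingEnd ℂ) (conv (cutg n g) u m j) :=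
    funext fun j => conv_neg hg hu m j
  rw [h1, prj_neg, nsq_neg, hu, map_sub, map_mul, map_mul, map_neg, Complex.conj_ofReal,
    Complex.conj_I]
  ring

/-- the admissible fields -/
noncomputable def AdmS (n : ℕ) (S : Set Wv) : Submodule ℝ (Vn n) where
  carrier := {x | Adm (ext x) ∧ ∀ k, k ∉ S → ext x k = 0}
  add_mem' := by
    rintro x y ⟨⟨hx1, hx2, hx3⟩, hx4⟩ ⟨⟨hy1, hy2, hy3⟩, hy4⟩
    refine ⟨⟨?_, ?_, ?_⟩, ?_⟩
    · funext i
      rw [ext_add, hx1, hy1]
      simp
    · intro k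
      have h1 : dt (ext (x + y) k) k = dt (ext x k) k + dt (ext y k) k := by
        unfold dt
        rw [← Finset.sum_add_distrib]
        exact Finset.sum_congr rfl fun i _ => by rw [ext_add]; ring
      rw [h1, hx2, hy2, add_zero]
    · intro k i
      rw [ext_add, ext_add, hx3, hy3, map_add]
    · intro k hk
      funext i
      rw [ext_add, hx4 k hk, hy4 k hk]
      simp
  zero_mem' := by
    refine ⟨⟨?_, ?_, ?_⟩, ?_⟩
    · funext i
      rw [ext_zero]
      rfl
    · intro k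
      unfold dt
      exact Finset.sum_eq_zero fun i _ => by rw [ext_zero, zero_mul]
    · intro k i
      rw [ext_zero, ext_zero, map_zero]
    · intro k _
      funext i
      rw [ext_zero]
      rfl
  smul_mem' := by
    rintro c x ⟨⟨hx1, hx2, hx3⟩, hx4⟩
    refine ⟨⟨?_, ?_, ?_⟩, ?_⟩
    · funext i
      rw [ext_smul, hx1]
      simp
    · intro k
      have h1 : dt (ext (c • x) k) k = c * dt (ext x k) k := by
        unfold dt
        rw [Finset.mul_sum]
        exact Finset.sum_congr rfl fun i _ => by rw [ext_smul]; ring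
      rw [h1, hx2, mul_zero]
    · intro k i
      rw [ext_smul, ext_smul, hx3, map_mul, Complex.conj_ofReal]
    · intro k hk
      funext i
      rw [ext_smul, hx4 k hk]
      simp

theorem fld_mem {g : Wv → Wv → Wv → ℝ} (hg : Arr g) (ν α : ℝ) {S : Set Wv}
    (hS : ∀ k l m, m ∉ S → g k l m = 0) {x : Vn n} (hx : x ∈ AdmS n S) :
    fld g ν α x ∈ AdmS n S := by
  obtain ⟨⟨hx1, hx2, hx3⟩, hx4⟩ := hx
  refine ⟨⟨?_, ?_, ?_⟩, ?_⟩
  · funext i
    rw [ext_fld _ _ _ _ zero_mem_cub, if_pos rfl]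
    rfl
  · intro k
    by_cases hk : k ∈ cub n
    · by_cases h0 : k = 0
      · subst h0
        simp [dt]
      · have h1 : ext (fld g ν α x) k = rhs (cutg n g) ν α (ext x) k := by
          funext i
          rw [ext_fld _ _ _ _ hk, if_neg h0]
        rw [h1]
        exact dt_rhs _ ν α h0 (hx2 k)
    · rw [ext_out _ hk]
      simp [dt]
  · intro k i
    by_cases hk : k ∈ cub n
    · rw [ext_fld _ _ _ _ hk, ext_fld _ _ _ _ (mem_cub_neg.2 hk)]
      by_cases h0 : k = 0
      · simp [h0]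
      · rw [if_neg h0, if_neg (neg_ne_zero.2 h0), rhs_neg hg ν α hx3]
    · rw [ext_out _ hk, ext_out _ (fun h => hk (mem_cub_neg.1 h))]
      simp
  · intro k hk
    funext i
    by_cases hkc : k ∈ cub n
    · rw [ext_fld _ _ _ _ hkc]
      by_cases h0 : k = 0
      · simp [h0]
      · rw [if_neg h0]
        have h1 : conv (cutg n g) (ext x) k = 0 := by
          funext j
          rw [conv_eq]
          apply Finset.sum_eq_zero
          intro l _
          have h2 : g l (k - l) (-k) = 0 := by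
            have h3 := hg.neg (-l) (-(k - l)) k
            rw [neg_neg, neg_neg] at h3
            rw [h3]
            exact hS _ _ _ hk
          simp [cutg, h2]
        unfold rhs
        rw [h1, hx4 k hk]
        simp [prj, dt]
    · rw [ext_out _ hkc]

theorem contDiff_ext (k : Wv) (i : Fin 3) : ContDiff ℝ 1 fun x : Vn n => ext x k i := by
  by_cases h : k ∈ cub n
  · simp only [ext_mem _ h]
    exact (PiLp.proj 2 (𝕜 := ℝ) (fun _ : Ix n => ℂ) (⟨k, h⟩, i)).contDiff
  · simp only [ext_out _ h]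
    exact contDiff_const

theorem contDiff_fld (g : Wv → Wv → Wv → ℝ) (ν α : ℝ) :
    ContDiff ℝ 1 (fld (n := n) g ν α) := by
  rw [contDiff_piLp 2]
  rintro ⟨⟨k, hk⟩, i⟩
  change ContDiff ℝ 1 fun x => if k = 0 then (0 : ℂ) else rhs (cutg n g) ν α (ext x) k i
  by_cases h0 : k = 0
  · simp only [if_pos h0]
    exact contDiff_const
  · simp only [if_neg h0]
    have hdt : ∀ l m : Wv, ContDiff ℝ 1 fun x : Vn n => dt (ext x l) m := by
      intro l m
      unfold dt
      exact ContDiff.sum fun i _ => (contDiff_ext l i).mul contDiff_const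
    have hc : ∀ j, ContDiff ℝ 1 fun x : Vn n => conv (cutg n g) (ext x) k j := by
      intro j
      simp only [conv_eq]
      exact ContDiff.sum fun l _ => ((contDiff_const.mul (hdt _ _)).mul (contDiff_ext _ _))
    have hd : ContDiff ℝ 1 fun x : Vn n => dt (conv (cutg n g) (ext x) k) k := by
      unfold dt
      exact ContDiff.sum fun i _ => (hc i).mul contDiff_const
    have hp : ContDiff ℝ 1 fun x : Vn n => prj k (conv (cutg n g) (ext x) k) i := by
      unfold prj
      exact (hc i).sub ((hd.mul contDiff_const).div_const _)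
    unfold rhs
    exact (contDiff_const.mul (contDiff_ext k i)).sub (contDiff_const.mul hp)

theorem lip_fld (g : Wv → Wv → Wv → ℝ) (ν α : ℝ) (R : ℝ) :
    ∃ K : ℝ≥0, LipschitzOnWith K (fld (n := n) g ν α) (closedBall 0 R) := by
  have h1 := contDiff_fld (n := n) g ν α
  have h2 : Continuous fun x : Vn n => ‖fderiv ℝ (fld (n := n) g ν α) x‖₊ :=
    (h1.continuous_fderiv one_ne_zero).nnnorm
  obtain ⟨K, hK⟩ := (isCompact_closedBall (0 : Vn n) R).bddAbove_image h2.continuousOn
  refine ⟨K, Convex.lipschitzOnWith_of_nnnorm_fderiv_le (𝕜 := ℝ)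
    (fun x _ => (h1.differentiable one_ne_zero) x) (fun x hx => hK (mem_image_of_mem _ hx))
    (convex_closedBall _ _)⟩

theorem inner_eq (x y : Vn n) :
    ⟪x, y⟫ = (∑ k ∈ cub n, ∑ j, (starRingEnd ℂ) (ext y k j) * ext x k j).re := by
  rw [PiLp.inner_apply, Complex.re_sum, Fintype.sum_prod_type,
    ← Finset.sum_coe_sort (cub n)]
  refine Finset.sum_congr rfl fun k _ => ?_
  rw [Complex.re_sum]
  refine Finset.sum_congr rfl fun j _ => ?_
  rw [ext_mem _ k.2, ext_mem _ k.2, Complex.inner]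
  simp only [Subtype.coe_eta, Complex.mul_re, Complex.conj_re, Complex.conj_im]
  ring

theorem inner_fld (hA : S_ALG) {g : Wv → Wv → Wv → ℝ} (hg : Arr g) {ν : ℝ} (hν : 0 < ν) (α : ℝ)
    {S : Set Wv} {x : Vn n} (hx : x ∈ AdmS n S) : ⟪fld g ν α x, x⟫ ≤ 0 := by
  obtain ⟨hadm, -⟩ := hx
  have h1 := (hA g n (ext x) hg hadm fun k hk => ext_out x hk).2
  rw [inner_eq]
  have h2 : ∑ k ∈ cub n, ∑ j, (starRingEnd ℂ) (ext x k j) * ext (fld g ν α x) k j =
      -((∑ k ∈ cub n, ∑ j, ν * nsq k ^ α * ‖ext x k j‖ ^ 2 : ℝ) : ℂ) +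
      ∑ m ∈ cub n, ∑ j, (nsq m ^ 0 : ℂ) * ((starRingEnd ℂ) (ext x m j) *
        (-Complex.I * prj m (conv (cutg n g) (ext x) m) j)) := by
    push_cast
    rw [← Finset.sum_neg_distrib, ← Finset.sum_add_distrib]
    refine Finset.sum_congr rfl fun k hk => ?_
    rw [← Finset.sum_neg_distrib, ← Finset.sum_add_distrib]
    refine Finset.sum_congr rfl fun j _ => ?_
    rw [ext_fld _ _ _ _ hk]
    by_cases h0 : k = 0
    · subst h0
      rw [if_pos rfl, hadm.zero]
      simp
    · rw [if_neg h0]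
      unfold rhs
      have h3 : ((‖ext x k j‖ : ℝ) : ℂ) ^ 2 = (starRingEnd ℂ) (ext x k j) * ext x k j := by
        rw [mul_comm, Complex.mul_conj, Complex.normSq_eq_norm_sq]
        push_cast
        ring
      rw [h3, pow_zero]
      push_cast
      ring
  rw [h2, Complex.add_re, Complex.neg_re, Complex.ofReal_re]
  have h3 : (∑ m ∈ cub n, ∑ j, (nsq m ^ 0 : ℂ) * ((starRingEnd ℂ) (ext x m j) *
        (-Complex.I * prj m (conv (cutg n g) (ext x) m) j))).re = 0 := h1
  rw [h3, add_zero, neg_nonpos]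
  refine Finset.sum_nonneg fun k _ => Finset.sum_nonneg fun j _ => ?_
  have := Real.rpow_nonneg (nsq_nonneg k) α
  positivity

/-- **The truncated systems have global solutions.** -/
theorem t_ODE : S_ODE := by
  intro hA g ν α n hg hν S hS u₀ hu₀ hu₀S
  let x₀ : Vn n := WithLp.toLp 2 fun p => u₀ p.1.1 p.2
  have hx₀ : ext x₀ = Pool.Agent.N983.RT.cut n u₀ := by
    funext k i
    by_cases hk : k ∈ cub n
    · rw [ext_mem _ hk]
      simp [Pool.Agent.N983.RT.cut, hk, x₀]
    · rw [ext_out _ hk]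
      simp [Pool.Agent.N983.RT.cut, hk]
  have hmem : x₀ ∈ AdmS n S := by
    change Adm (ext x₀) ∧ ∀ k, k ∉ S → ext x₀ k = 0
    rw [hx₀]
    refine ⟨⟨?_, ?_, ?_⟩, ?_⟩
    · unfold Pool.Agent.N983.RT.cut
      rw [if_pos zero_mem_cub, hu₀.zero]
    · intro k
      unfold Pool.Agent.N983.RT.cut
      split_ifs
      · exact hu₀.div k
      · simp [dt]
    · intro k i
      unfold Pool.Agent.N983.RT.cut
      by_cases hk : k ∈ cub n
      · rw [if_pos hk, if_pos (mem_cub_neg.2 hk), hu₀.real]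
      · rw [if_neg hk, if_neg (fun h => hk (mem_cub_neg.1 h))]
        simp
    · intro k hk
      unfold Pool.Agent.N983.RT.cut
      split_ifs
      · exact hu₀S k hk
      · rfl
  let F : AdmS n S → AdmS n S := fun x => ⟨fld g ν α x, fld_mem hg ν α hS x.2⟩
  have hF : ∀ R : ℝ, 0 < R → ∃ K : ℝ≥0, LipschitzOnWith K F (closedBall 0 R) := by
    intro R _
    obtain ⟨K, hK⟩ := lip_fld (n := n) g ν α R
    refine ⟨K, LipschitzOnWith.of_dist_le_mul fun x hx y hy => ?_⟩
    have h1 : ∀ z : AdmS n S, z ∈ closedBall (0 : AdmS n S) R →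
        (z : Vn n) ∈ closedBall (0 : Vn n) R := by
      intro z hz
      rw [mem_closedBall, dist_zero_right] at hz ⊢
      exact hz
    exact hK.dist_le_mul x (h1 x hx) y (h1 y hy)
  have hd : ∀ x, ⟪F x, x⟫ ≤ 0 := fun x => inner_fld hA hg hν α x.2
  obtain ⟨a, ha0, ha, hab⟩ := global hF hd ⟨x₀, hmem⟩
  have hbd : ∀ t, 0 ≤ t → ∀ k i, ‖ext (a t : Vn n) k i‖ ≤ ‖x₀‖ := by
    intro t ht k i
    by_cases hk : k ∈ cub n
    · rw [ext_mem _ hk]
      exact (PiLp.norm_apply_le (a t : Vn n) _).trans (hab t ht)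
    · rw [ext_out _ hk]
      simp
  refine ⟨fun t => ext (a t : Vn n), ⟨fun t _ => (a t).2.1, ?_, ?_⟩, ?_, ?_, ?_⟩
  · intro T s
    refine ⟨(∑ k ∈ cub n, (1 + nsq k) ^ s) * ‖x₀‖, fun t ht _ k i => ?_⟩
    have hpos : ∀ k, 0 ≤ (1 + nsq k) ^ s := fun k => by
      have := nsq_nonneg k
      positivity
    by_cases hk : k ∈ cub n
    · refine mul_le_mul ?_ (hbd t ht k i) (norm_nonneg _)
        (Finset.sum_nonneg fun k _ => hpos k)
      exact Finset.single_le_sum (fun k _ => hpos k) hk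
    · rw [ext_out _ hk]
      simp only [Pi.zero_apply, norm_zero, mul_zero]
      exact mul_nonneg (Finset.sum_nonneg fun k _ => hpos k) (norm_nonneg _)
  · intro t ht m hm j
    by_cases hmc : m ∈ cub n
    · have h1 : HasDerivWithinAt (fun t => (a t : Vn n)) (fld g ν α (a t)) (Ici 0) t :=
        (AdmS n S).subtypeL.hasFDerivAt.comp_hasDerivWithinAt t (ha t ht)
      have h2 := (PiLp.proj 2 (𝕜 := ℝ) (fun _ : Ix n => ℂ)
        (⟨m, hmc⟩, j)).hasFDerivAt.comp_hasDerivWithinAt t h1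
      have h3 : ((PiLp.proj 2 (𝕜 := ℝ) (fun _ : Ix n => ℂ) (⟨m, hmc⟩, j)) (fld g ν α (a t))) =
          rhs (cutg n g) ν α (ext (a t : Vn n)) m j := by
        change (if m = 0 then (0 : ℂ) else rhs (cutg n g) ν α (ext (a t : Vn n)) m j) = _
        rw [if_neg hm]
      rw [h3] at h2
      refine h2.congr (fun s _ => ?_) ?_
      · rw [ext_mem _ hmc]
        rfl
      · rw [ext_mem _ hmc]
        rfl
    · simp only [ext_out _ hmc]
      rw [rhs_out _ _ _ hmc (ext_out _ hmc)]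
      exact hasDerivWithinAt_const _ _ _
  · change ext (a 0 : Vn n) = _
    rw [ha0]
    exact hx₀
  · intro t _ k hk
    exact ext_out _ hk
  · intro t _ k hk
    exact (a t).2.2 k hk

end Pool.Agent.U178.RT
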